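import Pool.Agent.FactCons.Main

/-!
# `f n = 1` for at most `6 (log N)^3` integers `n ≤ N`
-/

namespace Pool.Agent.Results.MP_a9ea7c_nt.LogCubedCount

open Finset

/-- the spreads of `n!`: the integers `m ≥ 1` for which `n!` is the product of a finite set `s`
of at least two (distinct) positive integers with least element `a` and largest element `a + m` -/
def spreads (n : ℕ) : Set ℕ :=
  {m | 1 ≤ m ∧ ∃ s : Finset ℕ, 2 ≤ s.card ∧ (∀ x ∈ s, 1 ≤ x) ∧ ∏ x ∈ s, x = n.factorial ∧
    ∃ a ∈ s, a + m ∈ s ∧ ∀ x ∈ s, a ≤ x ∧ x ≤ a + m}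

/-- the least spread of `n!` (with value `0` if there is none) -/
noncomputable def f (n : ℕ) : ℕ := sInf (spreads n)

theorem f_eq_one_iff (n : ℕ) : f n = 1 ↔ ∃ a : ℕ, Pool.Agent.FactCons.Sol n a := by
  have key : f n = 1 ↔ 1 ∈ spreads n := by
    constructor
    · intro h
      have hne : (spreads n).Nonempty := by
        by_contra hcon
        rw [Set.not_nonempty_iff_eq_empty] at hcon
        unfold f at h
        rw [hcon] at h
        simp at h
      have := Nat.sInf_mem hne
      rwa [show sInf (spreads n) = 1 from h] at this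
    · intro h
      have h1 : f n ≤ 1 := Nat.sInf_le h
      have h2 : f n ∈ spreads n := Nat.sInf_mem ⟨1, h⟩
      have h3 : 1 ≤ f n := h2.1
      omega
  rw [key]
  constructor
  · rintro ⟨_, s, hcard, hpos, hprod, a, ha, ha1, hall⟩
    have hs : s = {a, a + 1} := by
      ext x
      simp only [Finset.mem_insert, Finset.mem_singleton]
      constructor
      · intro hx
        have := hall x hx
        omega
      · rintro (rfl | rfl)
        · exact ha
        · exact ha1
    refine ⟨a, ?_, ?_⟩
    · exact hpos a ha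
    · rw [← hprod, hs, Finset.prod_pair (by omega)]
  · rintro ⟨a, ha, hn⟩
    refine ⟨le_rfl, {a, a + 1}, ?_, ?_, ?_, a, ?_, ?_, ?_⟩
    · rw [Finset.card_pair (by omega)]
    · intro x hx
      simp only [Finset.mem_insert, Finset.mem_singleton] at hx
      omega
    · rw [Finset.prod_pair (by omega), hn]
    · simp
    · simp
    · intro x hx
      simp only [Finset.mem_insert, Finset.mem_singleton] at hx
      omega

/-- For every `N ≥ 2` there are at most `6 (log N)^3` integers `n ≤ N` with `f n = 1`,
i.e. such that `n!` is the product of two consecutive positive integers. -/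
theorem result : ∀ N : ℕ, 2 ≤ N →
    (Set.ncard {n : ℕ | n ≤ N ∧ f n = 1} : ℝ) ≤ 6 * (Real.log N) ^ 3 := by
  classical
  intro N hN
  have h := Pool.Agent.FactCons.cnt_bound N hN
  refine le_trans ?_ h
  have hset : {n : ℕ | n ≤ N ∧ f n = 1} =
      (((Finset.Icc 1 N).filter (fun n => ∃ a, Pool.Agent.FactCons.Sol n a) : Finset ℕ) :
        Set ℕ) := by
    ext n
    simp only [Set.mem_setOf_eq, Finset.coe_filter, Finset.mem_Icc]
    constructor
    · rintro ⟨h1, h2⟩
      obtain ⟨a, ha⟩ := (f_eq_one_iff n).1 h2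
      have := ha.two_le
      exact ⟨⟨by omega, h1⟩, a, ha⟩
    · rintro ⟨⟨_, h1⟩, h2⟩
      exact ⟨h1, (f_eq_one_iff n).2 h2⟩
  rw [hset, Set.ncard_coe_finset]
  unfold Pool.Agent.FactCons.cnt
  norm_cast

end Pool.Agent.Results.MP_a9ea7c_nt.LogCubedCount
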