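import Pool.Agent.GapB.Final

/-!
# `f n = 1` and `f (n + 1) = 1` exclude each other when `n` is a large prime power or twice one
-/

namespace Pool.Agent.Results.MP_a9ea7c_nt.PrimePowerPairs

open Finset

/-- the spreads of `n!`: the integers `m ≥ 1` for which `n!` is the product of a finite set `s`
of at least two (distinct) positive integers with least element `a` and largest element `a + m` -/
def spreads (n : ℕ) : Set ℕ :=
  {m | 1 ≤ m ∧ ∃ s : Finset ℕ, 2 ≤ s.card ∧ (∀ x ∈ s, 1 ≤ x) ∧ ∏ x ∈ s, x = n.factorial ∧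
    ∃ a ∈ s, a + m ∈ s ∧ ∀ x ∈ s, a ≤ x ∧ x ≤ a + m}

/-- the least spread of `n!` (with value `0` if there is none) -/
noncomputable def f (n : ℕ) : ℕ := sInf (spreads n)

theorem sol_of_f_eq_one {n : ℕ} (h : f n = 1) : ∃ a : ℕ, n.factorial = a * (a + 1) := by
  have hne : (spreads n).Nonempty := by
    by_contra hcon
    rw [Set.not_nonempty_iff_eq_empty] at hcon
    unfold f at h
    rw [hcon] at h
    simp at h
  have key : 1 ∈ spreads n := by
    have := Nat.sInf_mem hne
    rwa [show sInf (spreads n) = 1 from h] at this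
  obtain ⟨_, s, hcard, hpos, hprod, a, ha, ha1, hall⟩ := key
  have hs : s = {a, a + 1} := by
    ext x
    simp only [Finset.mem_insert, Finset.mem_singleton]
    constructor
    · intro hx
      have := hall x hx
      omega
    · rintro (rfl | rfl)
      · exact ha
      · exact ha1
  exact ⟨a, by rw [← hprod, hs, Finset.prod_pair (by omega)]⟩

/-- a prime power `q` with `q ∣ u v`, `u`, `v` coprime, divides `u` or `v` -/
theorem ppow_dvd {q u v : ℕ} (hq : IsPrimePow q) (huv : Nat.Coprime u v) (h : q ∣ u * v) :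
    q ∣ u ∨ q ∣ v := by
  obtain ⟨p, k, hp, hk, rfl⟩ := hq
  have hpp := Nat.prime_iff.2 hp
  rcases Nat.eq_zero_or_pos k with h0 | h0
  · omega
  by_cases hpu : p ∣ u
  · have hnv : ¬ p ∣ v := by
      intro hpv
      have := Nat.dvd_gcd hpu hpv
      rw [huv.gcd_eq_one] at this
      exact hpp.one_lt.ne' (Nat.dvd_one.1 this)
    left
    exact (Nat.Coprime.pow_left k ((Nat.Prime.coprime_iff_not_dvd hpp).2 hnv)).dvd_of_dvd_mul_right h
  · right
    exact (Nat.Coprime.pow_left k ((Nat.Prime.coprime_iff_not_dvd hpp).2 hpu)).dvd_of_dvd_mul_left h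

/-- There is an `N` such that for every `n ≥ N` that is a prime power or twice a prime power,
`f n = 1` and `f (n + 1) = 1` do not both hold: `n!` and `(n + 1)!` are not both products of two
consecutive positive integers. -/
theorem result : ∃ N : ℕ, ∀ n : ℕ, N ≤ n →
    (∃ q : ℕ, IsPrimePow q ∧ (n = q ∨ n = 2 * q)) → ¬ (f n = 1 ∧ f (n + 1) = 1) := by
  obtain ⟨N, hN⟩ := Pool.Agent.GapB.no_pell
  refine ⟨max N 4, ?_⟩
  rintro n hn ⟨q, hq, hnq⟩ ⟨h1, h2⟩
  have hnN : N ≤ n := (le_max_left _ _).trans hn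
  have hn4 : 4 ≤ n := (le_max_right _ _).trans hn
  obtain ⟨a, ha⟩ := sol_of_f_eq_one h1
  obtain ⟨b, hb⟩ := sol_of_f_eq_one h2
  have hfac : b * (b + 1) = (n + 1) * (a * (a + 1)) := by rw [← hb, Nat.factorial_succ, ha]
  have ha1 : 1 ≤ a := by
    rcases Nat.eq_zero_or_pos a with h0 | h0
    · rw [h0] at ha
      have := n.factorial_pos
      omega
    · exact h0
  have hab : a < b := by
    by_contra hcon
    push Not at hcon
    have h3 : b * (b + 1) ≤ a * (a + 1) := Nat.mul_le_mul hcon (by omega)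
    have h4 : 1 ≤ a * (a + 1) := Nat.mul_pos ha1 (by omega)
    nlinarith
  -- `u = b - a`, `v = a + b + 1`
  obtain ⟨u, hu⟩ : ∃ u, b = a + u := ⟨b - a, by omega⟩
  set v := a + b + 1 with hv
  have huv : u * v = n * n.factorial := by
    rw [hv, ha]
    subst hu
    zify at hfac ⊢
    linear_combination hfac
  have hcop : Nat.Coprime u v := by
    rw [Nat.coprime_iff_gcd_eq_one]
    by_contra hne
    obtain ⟨p, hp, hpd⟩ := Nat.exists_prime_and_dvd hne
    have hpu : p ∣ u := hpd.trans (Nat.gcd_dvd_left _ _)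
    have hpv : p ∣ v := hpd.trans (Nat.gcd_dvd_right _ _)
    -- `v = u + (2 a + 1)`
    have h3 : v = u + (2 * a + 1) := by omega
    have h4 : p ∣ 2 * a + 1 := by
      rw [h3] at hpv
      exact (Nat.dvd_add_right hpu).1 hpv
    have h5 : p ∣ n * n.factorial := by
      rw [← huv]; exact dvd_mul_of_dvd_left hpu _
    have h6 : p ≤ n := by
      rcases hp.dvd_mul.1 h5 with h7 | h7
      · exact Nat.le_of_dvd (by omega) h7
      · exact (hp.dvd_factorial).1 h7
    have h7 : p ∣ a * (a + 1) := by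
      rw [← ha]; exact (hp.dvd_factorial).2 h6
    have h8 : p ∣ (2 * a + 1) * (2 * a + 1) := dvd_mul_of_dvd_left h4 _
    have h9 : (2 * a + 1) * (2 * a + 1) = 4 * (a * (a + 1)) + 1 := by ring
    rw [h9] at h8
    have h10 := (Nat.dvd_add_right (dvd_mul_of_dvd_right h7 4)).1 h8
    exact hp.one_lt.ne' (Nat.dvd_one.1 h10)
  have hqn : q ∣ n := by
    rcases hnq with h | h
    · rw [h]
    · rw [h]; exact dvd_mul_left _ _
  have hquv : q ∣ u * v := by rw [huv]; exact dvd_mul_of_dvd_left hqn _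
  have hn2 : n ∣ 2 * q := by
    rcases hnq with h | h
    · rw [h]; exact dvd_mul_left _ _
    · rw [h]
  -- `n ∣ 2 u` or `n ∣ 2 v`
  have hfin : ∃ σ : ℤ, (σ = 1 ∨ σ = -1) ∧ (n : ℤ) ∣ (2 * b + 1) - σ * (2 * a + 1) := by
    rcases ppow_dvd hq hcop hquv with h | h
    · refine ⟨1, Or.inl rfl, ?_⟩
      have h3 : n ∣ 2 * u := hn2.trans (Nat.mul_dvd_mul_left 2 h)
      have h4 : (2 * (b : ℤ) + 1) - 1 * (2 * a + 1) = ((2 * u : ℕ) : ℤ) := by
        rw [hu]; push_cast; ring
      rw [h4]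
      exact_mod_cast h3
    · refine ⟨-1, Or.inr rfl, ?_⟩
      have h3 : n ∣ 2 * v := hn2.trans (Nat.mul_dvd_mul_left 2 h)
      have h4 : (2 * (b : ℤ) + 1) - (-1) * (2 * a + 1) = ((2 * v : ℕ) : ℤ) := by
        rw [hv]; push_cast; ring
      rw [h4]
      exact_mod_cast h3
  obtain ⟨σ, hσ, hdiv⟩ := hfin
  obtain ⟨P, Q, hQ, hPQ, hQd, hge⟩ := Pool.Agent.GapB.pell_of_pair hn4 ha hb σ hσ hdiv
  have := hN n P Q hnN hQ hPQ hQd
  omega

end Pool.Agent.Results.MP_a9ea7c_nt.PrimePowerPairs
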