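import Pool.Agent.FactLoc.Final
import Pool.Agent.FactCons.Main

/-!
# At most `1 + log₂ log N` integers `n` with `f n = 1` in `[N, N + N / (log N log log N) ^ 2]`
-/

namespace Pool.Agent.Results.MP_a9ea7c_nt.ShortIntervals

open Finset Filter

/-- the spreads of `n!`: the integers `m ≥ 1` for which `n!` is the product of a finite set `s`
of at least two (distinct) positive integers with least element `a` and largest element `a + m` -/
def spreads (n : ℕ) : Set ℕ :=
  {m | 1 ≤ m ∧ ∃ s : Finset ℕ, 2 ≤ s.card ∧ (∀ x ∈ s, 1 ≤ x) ∧ ∏ x ∈ s, x = n.factorial ∧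
    ∃ a ∈ s, a + m ∈ s ∧ ∀ x ∈ s, a ≤ x ∧ x ≤ a + m}

/-- the least spread of `n!` (with value `0` if there is none) -/
noncomputable def f (n : ℕ) : ℕ := sInf (spreads n)

theorem f_eq_one_iff (n : ℕ) : f n = 1 ↔ ∃ a : ℕ, Pool.Agent.FactCons.Sol n a := by
  have key : f n = 1 ↔ 1 ∈ spreads n := by
    constructor
    · intro h
      have hne : (spreads n).Nonempty := by
        by_contra hcon
        rw [Set.not_nonempty_iff_eq_empty] at hcon
        unfold f at h
        rw [hcon] at h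
        simp at h
      have := Nat.sInf_mem hne
      rwa [show sInf (spreads n) = 1 from h] at this
    · intro h
      have h1 : f n ≤ 1 := Nat.sInf_le h
      have h2 : f n ∈ spreads n := Nat.sInf_mem ⟨1, h⟩
      have h3 : 1 ≤ f n := h2.1
      omega
  rw [key]
  constructor
  · rintro ⟨_, s, hcard, hpos, hprod, a, ha, ha1, hall⟩
    have hs : s = {a, a + 1} := by
      ext x
      simp only [Finset.mem_insert, Finset.mem_singleton]
      constructor
      · intro hx
        have := hall x hx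
        omega
      · rintro (rfl | rfl)
        · exact ha
        · exact ha1
    refine ⟨a, ?_, ?_⟩
    · exact hpos a ha
    · rw [← hprod, hs, Finset.prod_pair (by omega)]
  · rintro ⟨a, ha, hn⟩
    refine ⟨le_rfl, {a, a + 1}, ?_, ?_, ?_, a, ?_, ?_, ?_⟩
    · rw [Finset.card_pair (by omega)]
    · intro x hx
      simp only [Finset.mem_insert, Finset.mem_singleton] at hx
      omega
    · rw [Finset.prod_pair (by omega), hn]
    · simp
    · simp
    · intro x hx
      simp only [Finset.mem_insert, Finset.mem_singleton] at hx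
      omega

/-- the statement for one `N`, under the inequalities that hold for all large `N` -/
theorem window (N : ℕ) (hlam : (10 : ℝ) ^ 6 ≤ Real.log (Real.log N))
    (hN4 : (Real.log N) ^ 4 ≤ N) :
    (Set.ncard {n : ℕ | N ≤ n ∧ (n : ℝ) ≤ N + N / (Real.log N * Real.log (Real.log N)) ^ 2 ∧
      f n = 1} : ℝ) ≤ 1 + Real.logb 2 (Real.log N) := by
  classical
  by_contra hcon
  push Not at hcon
  -- elementary facts
  have hl0' : 0 ≤ Real.log (N : ℝ) := Real.log_natCast_nonneg N
  have hl0 : 0 < Real.log (N : ℝ) := by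
    rcases hl0'.lt_or_eq with h3 | h3
    · exact h3
    · rw [← h3, Real.log_zero] at hlam
      norm_num at hlam
  have hl_lam : Real.log (Real.log N) ≤ Real.log N := by
    have := Real.log_le_sub_one_of_pos hl0
    linarith
  have hlam0 : 0 < Real.log (Real.log (N : ℝ)) := lt_of_lt_of_le (by norm_num) hlam
  have hl1 : 1 ≤ Real.log (N : ℝ) := by
    refine le_trans ?_ hl_lam
    exact le_trans (by norm_num) hlam
  have hNpos : 0 < (N : ℝ) := by
    rcases Nat.eq_zero_or_pos N with h3 | h3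
    · rw [h3] at hl0
      norm_num at hl0
    · exact_mod_cast h3
  have hN1 : 1 ≤ N := by exact_mod_cast hNpos
  set D : ℝ := (Real.log N * Real.log (Real.log N)) ^ 2 with hD
  have hD1 : 1 ≤ D := by
    have h3 : 1 ≤ Real.log N * Real.log (Real.log N) := by
      have h4 : 1 ≤ Real.log (Real.log (N : ℝ)) := le_trans (by norm_num) hlam
      nlinarith
    rw [hD]
    nlinarith
  have hD0 : 0 < D := by linarith
  set h : ℕ := ⌊(N : ℝ) / D⌋₊ with hh
  have hle : (h : ℝ) ≤ N / D := Nat.floor_le (by positivity)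
  have hhD : (h : ℝ) * D ≤ N := by rwa [le_div_iff₀ hD0] at hle
  have hhN : h ≤ N := by
    have h3 : (h : ℝ) ≤ h * D := le_mul_of_one_le_right (by positivity) hD1
    exact_mod_cast h3.trans hhD
  -- the set as a finset
  set S : Finset ℕ := (Finset.Icc N (N + h)).filter (fun n => f n = 1) with hS
  have hset : {n : ℕ | N ≤ n ∧ (n : ℝ) ≤ N + N / D ∧ f n = 1} = (S : Set ℕ) := by
    ext n
    simp only [Set.mem_setOf_eq, hS, Finset.coe_filter, Finset.mem_Icc]
    constructor
    · rintro ⟨h1, h2, h3⟩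
      refine ⟨⟨h1, ?_⟩, h3⟩
      have h4 : ((n - N : ℕ) : ℝ) ≤ N / D := by
        rw [Nat.cast_sub h1]
        linarith
      have h5 : n - N ≤ h := Nat.le_floor h4
      omega
    · rintro ⟨⟨h1, h2⟩, h3⟩
      refine ⟨h1, ?_, h3⟩
      have h4 : (n : ℝ) ≤ N + h := by exact_mod_cast h2
      linarith
  rw [hset, Set.ncard_coe_finset] at hcon
  -- the number `k`
  set t : ℝ := Real.logb 2 (Real.log N) with ht
  have ht0 : 0 ≤ t := Real.logb_nonneg (by norm_num) hl1
  set k : ℕ := ⌊t⌋₊ + 2 with hk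
  have hkcard : k ≤ S.card := by
    have h3 : ((⌊t⌋₊ : ℕ) : ℝ) ≤ t := Nat.floor_le ht0
    have h4 : ((⌊t⌋₊ + 1 : ℕ) : ℝ) < S.card := by
      push_cast
      linarith
    have h5 : ⌊t⌋₊ + 1 < S.card := by exact_mod_cast h4
    omega
  have hkr1 : t + 1 < k := by
    have h3 := Nat.lt_floor_add_one t
    rw [hk]
    push_cast
    linarith
  have hkr2 : (k : ℝ) ≤ t + 2 := by
    have h3 : ((⌊t⌋₊ : ℕ) : ℝ) ≤ t := Nat.floor_le ht0
    rw [hk]
    push_cast
    linarith
  have h2t : (2 : ℝ) ^ t = Real.log N := Real.rpow_logb (by norm_num) (by norm_num) hl0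
  have hP1 : 2 * Real.log N < (2 : ℝ) ^ k := by
    have h3 : (2 : ℝ) ^ (t + 1) < (2 : ℝ) ^ (k : ℝ) :=
      Real.rpow_lt_rpow_of_exponent_lt (by norm_num) hkr1
    rw [Real.rpow_add (by norm_num), h2t, Real.rpow_one, Real.rpow_natCast] at h3
    linarith
  have hP2 : (2 : ℝ) ^ k ≤ 4 * Real.log N := by
    have h3 : (2 : ℝ) ^ (k : ℝ) ≤ (2 : ℝ) ^ (t + 2) :=
      Real.rpow_le_rpow_of_exponent_le (by norm_num) hkr2
    rw [Real.rpow_add (by norm_num), h2t, Real.rpow_natCast] at h3
    norm_num at h3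
    linarith
  have hk3 : (k : ℝ) ≤ 3 * Real.log (Real.log N) := by
    refine hkr2.trans ?_
    have h3 : t = Real.log (Real.log N) / Real.log 2 := rfl
    have h4 := Real.log_two_gt_d9
    have h5 : t ≤ 2 * Real.log (Real.log N) := by
      rw [h3, div_le_iff₀ (by linarith)]
      nlinarith
    have h6 : (2 : ℝ) ≤ Real.log (Real.log N) := le_trans (by norm_num) hlam
    linarith
  -- the `k` solutions
  obtain ⟨T, hTS, hT⟩ := Finset.exists_subset_card_eq hkcard
  set n : ℕ → ℕ := fun i => if hi : i < k then T.orderEmbOfFin hT ⟨i, hi⟩ else 0 with hn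
  have hnT : ∀ i < k, n i ∈ S := by
    intro i hi
    have h3 : n i = T.orderEmbOfFin hT ⟨i, hi⟩ := by
      rw [hn]
      simp only [dif_pos hi]
    rw [h3]
    exact hTS (Finset.orderEmbOfFin_mem T hT _)
  have hmem : ∀ i < k, N ≤ n i ∧ n i ≤ N + h ∧ f (n i) = 1 := by
    intro i hi
    have h3 := hnT i hi
    rw [hS, Finset.mem_filter, Finset.mem_Icc] at h3
    exact ⟨h3.1.1, h3.1.2, h3.2⟩
  have hmono : ∀ i j, i < j → j < k → n i < n j := by
    intro i j hij hj
    have h3 : n i = T.orderEmbOfFin hT ⟨i, hij.trans hj⟩ := by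
      rw [hn]
      simp only [dif_pos (hij.trans hj)]
    have h4 : n j = T.orderEmbOfFin hT ⟨j, hj⟩ := by
      rw [hn]
      simp only [dif_pos hj]
    rw [h3, h4]
    exact (T.orderEmbOfFin hT).strictMono (by exact_mod_cast hij)
  have hsol : ∀ i, ∃ a : ℕ, i < k → (n i).factorial = a * (a + 1) := by
    intro i
    by_cases hi : i < k
    · obtain ⟨a, ha⟩ := (f_eq_one_iff (n i)).1 (hmem i hi).2.2
      exact ⟨a, fun _ => ha.2⟩
    · exact ⟨0, fun h3 => absurd h3 hi⟩
  choose a ha using hsol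
  have hk1 : 1 ≤ k := by omega
  obtain ⟨r1, r2⟩ := Pool.Agent.FactLoc.nat_ineqs N h k (n 0) hk1 hlam hN4 hk3 hP1 hP2 hhD
    (hmem 0 (by omega)).1 (hmem 0 (by omega)).2.1
  exact Pool.Agent.FactLoc.no_window N h k n a hk1 hN1 hhN
    (fun i hi => ⟨(hmem i hi).1, (hmem i hi).2.1⟩) hmono ha r1 r2

/-- For all large `N` the interval `[N, N + N / (log N log log N) ^ 2]` contains at most
`1 + log₂ log N` integers `n` with `f n = 1`, i.e. such that `n!` is the product of two
consecutive positive integers. -/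
theorem result : ∃ N₀ : ℕ, ∀ N : ℕ, N₀ ≤ N →
    (Set.ncard {n : ℕ | N ≤ n ∧ (n : ℝ) ≤ N + N / (Real.log N * Real.log (Real.log N)) ^ 2 ∧
      f n = 1} : ℝ) ≤ 1 + Real.logb 2 (Real.log N) := by
  have h1 : ∀ᶠ N : ℕ in atTop, (10 : ℝ) ^ 6 ≤ Real.log (Real.log N) :=
    ((Real.tendsto_log_atTop.comp Real.tendsto_log_atTop).comp
      tendsto_natCast_atTop_atTop).eventually_ge_atTop _
  have h2 : ∀ᶠ N : ℕ in atTop, (Real.log N) ^ 4 ≤ N := by
    have h3 := (Real.isLittleO_pow_log_id_atTop (n := 4)).bound (zero_lt_one)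
    have h4 := tendsto_natCast_atTop_atTop.eventually h3
    filter_upwards [h4] with N hN
    rw [one_mul, id, Real.norm_natCast] at hN
    exact (le_abs_self _).trans hN
  obtain ⟨N₀, hN₀⟩ := eventually_atTop.1 (h1.and h2)
  exact ⟨N₀, fun N hN => window N (hN₀ N hN).1 (hN₀ N hN).2⟩

end Pool.Agent.Results.MP_a9ea7c_nt.ShortIntervals
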