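import Pool.Agent.GapA.Params

/-!
# `f n = 1` and `f (n + h) = 1` exclude each other when the Pell equation of
`(n + 1)(n + 2)⋯(n + h)` has a small solution
-/

namespace Pool.Agent.Results.MP_a9ea7c_nt.SmallUnitPairs

open Finset

/-- the spreads of `n!`: the integers `m ≥ 1` for which `n!` is the product of a finite set `s`
of at least two (distinct) positive integers with least element `a` and largest element `a + m` -/
def spreads (n : ℕ) : Set ℕ :=
  {m | 1 ≤ m ∧ ∃ s : Finset ℕ, 2 ≤ s.card ∧ (∀ x ∈ s, 1 ≤ x) ∧ ∏ x ∈ s, x = n.factorial ∧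
    ∃ a ∈ s, a + m ∈ s ∧ ∀ x ∈ s, a ≤ x ∧ x ≤ a + m}

/-- the least spread of `n!` (with value `0` if there is none) -/
noncomputable def f (n : ℕ) : ℕ := sInf (spreads n)

theorem sol_of_f_eq_one {n : ℕ} (h : f n = 1) : ∃ a : ℕ, n.factorial = a * (a + 1) := by
  have hne : (spreads n).Nonempty := by
    by_contra hcon
    rw [Set.not_nonempty_iff_eq_empty] at hcon
    unfold f at h
    rw [hcon] at h
    simp at h
  have key : 1 ∈ spreads n := by
    have := Nat.sInf_mem hne
    rwa [show sInf (spreads n) = 1 from h] at this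
  obtain ⟨_, s, hcard, hpos, hprod, a, ha, ha1, hall⟩ := key
  have hs : s = {a, a + 1} := by
    ext x
    simp only [Finset.mem_insert, Finset.mem_singleton]
    constructor
    · intro hx
      have := hall x hx
      omega
    · rintro (rfl | rfl)
      · exact ha
      · exact ha1
  exact ⟨a, by rw [← hprod, hs, Finset.prod_pair (by omega)]⟩

/-- Let `log log n ≥ 10`, `h ≥ 1` and `ρ = (n + 1)(n + 2)⋯(n + h)`. If `x² = ρ y² + 1` for some
positive integers `x, y` with `log x · log (x ρ) ≤ n / (10⁸ (log log n)²)`, then `f n = 1` and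
`f (n + h) = 1` do not both hold: `n!` and `(n + h)!` are not both products of two consecutive
positive integers. -/
theorem result (n h x y : ℕ) (hn : 10 ≤ Real.log (Real.log n)) (hh : 1 ≤ h) (hy : 1 ≤ y)
    (hxy : x ^ 2 = (∏ i ∈ Finset.Icc (n + 1) (n + h), i) * y ^ 2 + 1)
    (hx : Real.log x * Real.log (x * ((∏ i ∈ Finset.Icc (n + 1) (n + h), i : ℕ) : ℝ))
      ≤ n / (10 ^ 8 * (Real.log (Real.log n)) ^ 2)) :
    ¬ (f n = 1 ∧ f (n + h) = 1) := by
  rintro ⟨h1, h2⟩
  obtain ⟨a, ha⟩ := sol_of_f_eq_one h1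
  obtain ⟨b, hb⟩ := sol_of_f_eq_one h2
  exact Pool.Agent.GapA.no_pair n h x y a b hn hh hy hxy hx ha hb

end Pool.Agent.Results.MP_a9ea7c_nt.SmallUnitPairs
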